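import Pool.Agent.H14.PD.Stmts

/-!
Project PD, module FLP: removing the bottom level of a slab.
-/

set_option autoImplicit false

namespace Pool.Agent.H14.PD

/-- the complex with the opposite height function -/
def flp_flip {V S : Type} (M : Mc V S) : Mc V S where
  toCx := M.toCx
  m := M.m
  m_pos := M.m_pos
  eta := fun x s => - M.eta x s
  big := M.big
  eta_inv := by intro x s h; rw [M.eta_inv x s h]
  eta_sq := by intro x s t h h1 h2; rw [M.eta_sq x s t h h1 h2]
  eta_big := by
    intro x s h1 h2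
    rcases M.eta_big x s h1 h2 with h | h
    · right; rw [h]
    · left; rw [h]; ring
  eta_small := by
    intro x s h1 h2
    rcases M.eta_small x s h1 h2 with h | h
    · right; rw [h]
    · left; rw [h]; ring
  big_cm := M.big_cm

/-- `N` is `M` with the opposite height function -/
def flp_Fl {V S : Type} (M N : Mc V S) : Prop :=
  N.cm = M.cm ∧ N.lab = M.lab ∧ N.act = M.act ∧ ∀ x s, N.eta x s = - M.eta x s

theorem flp_Fl_symm {V S : Type} {M N : Mc V S} (h : flp_Fl M N) : flp_Fl N M :=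
  ⟨h.1.symm, h.2.1.symm, h.2.2.1.symm, fun x s => by rw [h.2.2.2 x s]; ring⟩

/-- the reflection of a dart -/
def flp_ph {V S : Type} (p : (V × ℤ) × S) : (V × ℤ) × S := ((p.1.1, -p.1.2), p.2)

/-- the reflection of the free group -/
def flp_F (V S : Type) : FreeGroup ((V × ℤ) × S) →* FreeGroup ((V × ℤ) × S) :=
  FreeGroup.map flp_ph

theorem flp_FF {V S : Type} (w : FreeGroup ((V × ℤ) × S)) : flp_F V S (flp_F V S w) = w := by
  unfold flp_F
  rw [FreeGroup.map.comp]
  have : (flp_ph ∘ flp_ph : (V × ℤ) × S → (V × ℤ) × S) = id := by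
    funext p
    simp [flp_ph]
  rw [this]
  exact FreeGroup.map.id w

section
variable {V S : Type} {M N : Mc V S}

theorem flp_lact (h : flp_Fl M N) (y : V × ℤ) (s : S) :
    N.lact (y.1, -y.2) s = ((M.lact y s).1, -(M.lact y s).2) := by
  obtain ⟨-, -, h3, h4⟩ := h
  simp only [Mc.lact, h3, h4]
  exact Prod.ext rfl (by ring)

theorem flp_lab (h : flp_Fl M N) (a b : ℤ) (y : V × ℤ) (s : S)
    (hl : (M.slab a b).lab y s) : (N.slab (-b) (-a)).lab (y.1, -y.2) s := by
  obtain ⟨k1, ⟨k2, k3⟩, k4, k5⟩ := hl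
  refine ⟨?_, ⟨?_, ?_⟩, ?_⟩
  · show N.lab y.1 s
    rw [h.2.1]; exact k1
  · show -b ≤ -y.2
    omega
  · show -y.2 ≤ -a
    omega
  · rw [flp_lact h]
    constructor
    · show -b ≤ -(M.lact y s).2
      omega
    · show -(M.lact y s).2 ≤ -a
      omega

theorem flp_tr (h : flp_Fl M N) (a b : ℤ) (w : List S) : ∀ y : V × ℤ,
    Tr (M.slab a b).lab M.lact y w → Tr (N.slab (-b) (-a)).lab N.lact (y.1, -y.2) w := by
  induction w with
  | nil => intro y _; trivial
  | cons s w ih =>
    intro y hw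
    refine ⟨flp_lab h a b y s hw.1, ?_⟩
    rw [flp_lact h]
    exact ih _ hw.2

theorem flp_en (h : flp_Fl M N) (w : List S) : ∀ y : V × ℤ,
    en N.lact (y.1, -y.2) w = ((en M.lact y w).1, -(en M.lact y w).2) := by
  induction w with
  | nil => intro y; rfl
  | cons s w ih =>
    intro y
    show en N.lact (N.lact (y.1, -y.2) s) w = _
    rw [flp_lact h]
    exact ih _

theorem flp_wd (h : flp_Fl M N) (w : List S) : ∀ y : V × ℤ,
    wd N.lact (y.1, -y.2) w = flp_F V S (wd M.lact y w) := by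
  induction w with
  | nil => intro y; exact (map_one _).symm
  | cons s w ih =>
    intro y
    show FreeGroup.of ((y.1, -y.2), s) * wd N.lact (N.lact (y.1, -y.2) s) w =
      flp_F V S (FreeGroup.of (y, s) * wd M.lact (M.lact y s) w)
    rw [map_mul, flp_lact h, ih (M.lact y s)]
    rfl

theorem flp_nrel (h : flp_Fl M N) (a b : ℤ) :
    ∀ r ∈ (M.slab a b).nrel, flp_F V S r ∈ (N.slab (-b) (-a)).nrel := by
  rintro r (⟨y, s, h1, rfl⟩ | ⟨y, s, t, h1, h2, h3, rfl⟩)
  · refine Or.inl ⟨(y.1, -y.2), s, flp_lab h a b y s h1, ?_⟩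
    exact (flp_wd h [s, s] y).symm
  · refine Or.inr ⟨(y.1, -y.2), s, t, ?_, flp_tr h a b _ y h2, ?_, ?_⟩
    · show N.cm s t
      rw [h.1]; exact h1
    · show en N.lact (y.1, -y.2) [s, t, s, t] = _
      rw [flp_en h]
      have h3' : en M.lact y [s, t, s, t] = y := h3
      rw [h3']
    · exact (flp_wd h [s, t, s, t] y).symm

theorem flp_nc (h : flp_Fl M N) (a b : ℤ) (w : FreeGroup ((V × ℤ) × S))
    (hw : w ∈ Subgroup.normalClosure (M.slab a b).nrel) :
    flp_F V S w ∈ Subgroup.normalClosure (N.slab (-b) (-a)).nrel := by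
  have : Subgroup.normalClosure (M.slab a b).nrel ≤
      (Subgroup.normalClosure (N.slab (-b) (-a)).nrel).comap (flp_F V S) := by
    apply Subgroup.normalClosure_le_normal
    intro r hr
    exact Subgroup.subset_normalClosure (flp_nrel h a b r hr)
  exact this hw

theorem flp_darts (h : flp_Fl M N) (a b : ℤ) (w : FreeGroup ((V × ℤ) × S))
    (hw : w ∈ darts M a b) : flp_F V S w ∈ darts N (-b) (-a) := by
  have : darts M a b ≤ (darts N (-b) (-a)).comap (flp_F V S) := by
    unfold darts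
    rw [Subgroup.closure_le]
    rintro x ⟨y, s, h1, rfl⟩
    apply Subgroup.subset_closure
    exact ⟨(y.1, -y.2), s, flp_lab h a b y s h1, rfl⟩
  exact this hw

end

theorem pd_flp : M_FLP := by
  intro hRTB V S M a b hUp hab w hw hd
  have hF : flp_Fl M (flp_flip M) := ⟨rfl, rfl, rfl, fun _ _ => rfl⟩
  have hdn : (flp_flip M).LkDn := by
    intro x hx
    have h1 := hUp x hx
    have h2 : (fun s => M.lab x s ∧ 0 < M.eta x s) = (fun s => M.lab x s ∧ - M.eta x s < 0) := by
      funext s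
      simp
    rw [h2] at h1
    exact h1
  have h1 := flp_nc hF (a - 1) b w hw
  rw [show -(a - 1) = -a + 1 by ring] at h1
  have h2 := flp_darts hF a b w hd
  have h3 := hRTB V S (flp_flip M) (-b) (-a) hdn
    (by show (M.m : ℤ) + 1 ≤ -a - -b; omega) _ h1 h2
  have h4 := flp_nc (flp_Fl_symm hF) (-b) (-a) _ h3
  rw [flp_FF, neg_neg, neg_neg] at h4
  exact h4

end Pool.Agent.H14.PD
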