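import Pool.Agent.H14.PD.Stmts

/-!
Project PD, module SLB: closed paths of a slab with trivial label are null-homotopic in the slab.
-/

set_option autoImplicit false

namespace Pool.Agent.H14.PD

theorem slb_darts_mono {V S : Type} (M : Mc V S) {a b a' b' : ℤ} (ha : a' ≤ a) (hb : b ≤ b') :
    darts M a b ≤ darts M a' b' := by
  unfold darts
  apply Subgroup.closure_mono
  rintro x ⟨y, s, ⟨h1, h2, h3⟩, rfl⟩
  exact ⟨y, s, ⟨h1, ⟨by omega, by omega⟩, by omega, by omega⟩, rfl⟩

theorem slb_wd_mem {V S : Type} (M : Mc V S) (a b : ℤ) (w : List S) : ∀ y : V × ℤ,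
    Tr (M.slab a b).lab M.lact y w → wd M.lact y w ∈ darts M a b := by
  induction w with
  | nil => intro y _; exact Subgroup.one_mem _
  | cons s w ih =>
    intro y hw
    exact Subgroup.mul_mem _ (Subgroup.subset_closure ⟨y, s, hw.1, rfl⟩) (ih _ hw.2)

theorem pd_slb : M_SLB := by
  intro _ hSLP hRTB hFLP hBIG V S M hUp hDn a b hab y w hw hpr
  cases w with
  | nil => exact Subgroup.one_mem _
  | cons s w' =>
    have hy : a ≤ y.2 ∧ y.2 ≤ b := hw.1.2.1
    have hlf := (hSLP V S M a b).2.1 y _ hw
    have hd := slb_wd_mem M a b _ y hw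
    set ww := s :: w' with hww
    have hK : ∃ K : ℕ, (K : ℤ) = M.m * (ww.length + 2) := ⟨M.m * (ww.length + 2), by push_cast; ring⟩
    obtain ⟨K, hK⟩ := hK
    have h0 := hBIG V S M y ww hlf hpr (a - K) (b + K) (by rw [hK]; linarith [hy.1])
      (by rw [hK]; linarith [hy.2])
    -- remove the top levels
    have top : ∀ k : ℕ, wd M.lact y ww ∈ Subgroup.normalClosure (M.slab (a - K) (b + k)).nrel →
        wd M.lact y ww ∈ Subgroup.normalClosure (M.slab (a - K) b).nrel := by
      intro k
      induction k with
      | zero => intro h; simpa using h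
      | succ k ih =>
        intro h
        apply ih
        apply hRTB V S M (a - K) (b + k) hDn (by omega)
        · have e : b + (k : ℤ) + 1 = b + ((k + 1 : ℕ) : ℤ) := by push_cast; ring
          rw [e]; exact h
        · exact slb_darts_mono M (by omega) (by omega) hd
    have bot : ∀ k : ℕ, wd M.lact y ww ∈ Subgroup.normalClosure (M.slab (a - k) b).nrel →
        wd M.lact y ww ∈ Subgroup.normalClosure (M.slab a b).nrel := by
      intro k
      induction k with
      | zero => intro h; simpa using h
      | succ k ih =>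
        intro h
        apply ih
        apply hFLP V S M (a - k) b hUp (by omega)
        · have e : a - (k : ℤ) - 1 = a - ((k + 1 : ℕ) : ℤ) := by push_cast; ring
          rw [e]; exact h
        · exact slb_darts_mono M (by omega) (by omega) hd
    exact bot K (top K h0)

end Pool.Agent.H14.PD
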