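import Pool.Agent.H14.PD.Stmts

/-!
Project PD, module XEX: labels with prescribed sign exist in every direction.
-/

set_option autoImplicit false

namespace Pool.Agent.H14.PD

theorem xex_pe {P Q : Type} (Z : Sz P Q) (p : P) (b : Bool) : ∃ c, pe Z p b = Nd.p p c ∧
    nrm Z (pe Z p b) := by
  unfold pe nrm
  by_cases h : p = Z.ps
  · refine ⟨false, by simp [h], ?_⟩
    intro c hc
    simp only [h, if_true, Nd.p.injEq, true_and] at hc
    exact hc.symm
  · refine ⟨b, by simp [h], ?_⟩
    intro c hc
    simp only [h, if_false, Nd.p.injEq] at hc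
    exact hc.1.elim

theorem xex_fin (i : Fin 3) : i + 1 ≠ i := by
  fin_cases i <;> decide

theorem pd_xex : XEX := by
  intro P Q Z x hx i up
  obtain ⟨hn, ha⟩ := hx
  have hpos : ∀ m : ℕ, 1 ≤ m → (0 : ℤ) < (if i = 0 then (m : ℤ) else 1) := by
    intro m hm
    split_ifs
    · exact_mod_cast hm
    · exact one_pos
  rcases hxi : x i with ⟨p, b⟩ | ⟨q, b⟩
  · -- P-type: choose q
    have hq : ∃ q : Q, (Z.bp p = Z.bq q ↔ up = true) ∧
        ∀ j p'' b'', j + 1 = i → x j = Nd.p p'' b'' → Z.adj p'' q := by
      have hj : (i + 2) + 1 = i := by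
        fin_cases i <;> decide
      have hj' : ∀ j : Fin 3, j + 1 = i → j = i + 2 := by
        intro j h
        rw [← h]
        fin_cases j <;> decide
      rcases hxj : x (i + 2) with ⟨p2, b2⟩ | ⟨q2, b2⟩
      · obtain ⟨q, hq1, hq2⟩ := Z.nbp p2 (if up then Z.bp p else !Z.bp p)
        refine ⟨q, ?_, ?_⟩
        · rw [hq2]
          cases up <;> simp
        · intro j p'' b'' h1 h2
          rw [hj' j h1, hxj] at h2
          simp only [Nd.p.injEq] at h2
          rw [← h2.1]; exact hq1
      · obtain ⟨q, hq1, hq2⟩ := Z.nbp p (if up then Z.bp p else !Z.bp p)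
        refine ⟨q, ?_, ?_⟩
        · rw [hq2]
          cases up <;> simp
        · intro j p'' b'' h1 h2
          rw [hj' j h1, hxj] at h2
          cases h2
    obtain ⟨q, hq1, hq2⟩ := hq
    have hxa : xact Z x (i, p, q, b) = Function.update x i (Nd.q q b) := by
      simp [xact, oe, hxi]
    have hpe : x i = pe Z p b := by
      rw [hxi]
      unfold pe
      split_ifs with h
      · have := hn i b (by rw [hxi, h])
        rw [this]
      · rfl
    refine ⟨(i, p, q, b), rfl, ⟨⟨hn, ha⟩, ?_, Or.inr hpe⟩, ?_⟩
    · rw [hxa]
      refine ⟨?_, ?_⟩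
      · intro j
        by_cases hji : j = i
        · rw [hji, Function.update_self]
          intro c hc; cases hc
        · rw [Function.update_of_ne hji]
          exact hn j
      · intro j p' b' q' c' h1 h2
        by_cases hji : j = i
        · rw [hji, Function.update_self] at h1
          cases h1
        · rw [Function.update_of_ne hji] at h1
          by_cases hji' : j + 1 = i
          · rw [hji', Function.update_self] at h2
            simp only [Nd.q.injEq] at h2
            rw [← h2.1]
            exact hq2 j p' b' hji' h1
          · rw [Function.update_of_ne hji'] at h2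
            exact ha j p' b' q' c' h1 h2
    · intro m hm
      have h0 := hpos m hm
      have e : xeta Z m x (i, p, q, b) = (if i = 0 then (m : ℤ) else 1) *
          (if Z.bp p = Z.bq q then 1 else -1) := by
        simp [xeta, hxi]
      rw [e]
      cases up
      · have h1 : ¬ (Z.bp p = Z.bq q) := by rw [hq1]; simp
        simp only [h1, if_false, Bool.false_eq_true]
        linarith
      · have h1 : Z.bp p = Z.bq q := by rw [hq1]
        simp only [h1, if_true]
        linarith
  · -- Q-type: choose p
    have hp : ∃ p : P, (Z.bp p = Z.bq q ↔ up = false) ∧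
        ∀ q'' b'', x (i + 1) = Nd.q q'' b'' → Z.adj p q'' := by
      rcases hxj : x (i + 1) with ⟨p2, b2⟩ | ⟨q2, b2⟩
      · obtain ⟨p, hp1, hp2⟩ := Z.nbq q (if up then !Z.bq q else Z.bq q)
        refine ⟨p, ?_, ?_⟩
        · rw [hp2]
          cases up <;> simp
        · intro q'' b'' h2
          cases h2
      · obtain ⟨p, hp1, hp2⟩ := Z.nbq q2 (if up then !Z.bq q else Z.bq q)
        refine ⟨p, ?_, ?_⟩
        · rw [hp2]
          cases up <;> simp
        · intro q'' b'' h2
          simp only [Nd.q.injEq] at h2
          rw [← h2.1]; exact hp1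
    obtain ⟨p, hp1, hp2⟩ := hp
    obtain ⟨c, hc1, hc2⟩ := xex_pe Z p b
    have hxa : xact Z x (i, p, q, b) = Function.update x i (pe Z p b) := by
      simp [xact, oe, hxi]
    refine ⟨(i, p, q, b), rfl, ⟨⟨hn, ha⟩, ?_, Or.inl hxi⟩, ?_⟩
    · rw [hxa]
      refine ⟨?_, ?_⟩
      · intro j
        by_cases hji : j = i
        · rw [hji, Function.update_self]
          exact hc2
        · rw [Function.update_of_ne hji]
          exact hn j
      · intro j p' b' q' c' h1 h2
        by_cases hji : j = i
        · rw [hji, Function.update_self, hc1] at h1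
          simp only [Nd.p.injEq] at h1
          rw [hji, Function.update_of_ne (xex_fin i)] at h2
          rw [← h1.1]
          exact hp2 q' c' h2
        · rw [Function.update_of_ne hji] at h1
          by_cases hji' : j + 1 = i
          · rw [hji', Function.update_self, hc1] at h2
            cases h2
          · rw [Function.update_of_ne hji'] at h2
            exact ha j p' b' q' c' h1 h2
    · intro m hm
      have h0 := hpos m hm
      have e : xeta Z m x (i, p, q, b) = (if i = 0 then (m : ℤ) else 1) *
          ((if Z.bp p = Z.bq q then 1 else -1) * (-1)) := by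
        simp [xeta, hxi]
      rw [e]
      cases up
      · have h1 : Z.bp p = Z.bq q := by rw [hp1]
        simp only [h1, if_true, Bool.false_eq_true, if_false]
        linarith
      · have h1 : ¬ (Z.bp p = Z.bq q) := by rw [hp1]; simp
        simp only [h1, if_false, if_true]
        linarith

end Pool.Agent.H14.PD
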