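import Pool.Agent.H14.PD.Stmts

/-!
Project PD, module NOT: raising a notch.
-/

set_option autoImplicit false

namespace Pool.Agent.H14.PD

theorem pd_not : M_NOT := by
  intro hPRB hTRB V S M tu B hB n
  have hm1 := M.m_pos
  have hbig : ∀ x s, M.lab x s → M.big s → 0 < M.eta x s → M.eta x s = M.m := by
    intro x s h1 h2 h3
    rcases M.eta_big x s h1 h2 with h | h
    · exact h
    · omega
  have hsm : ∀ x s, M.lab x s → ¬ M.big s → 0 < M.eta x s → M.eta x s = 1 := by
    intro x s h1 h2 h3
    rcases M.eta_small x s h1 h2 with h | h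
    · exact h
    · omega
  induction n with
  | zero =>
    intro y a a' _ hy ba ba' la la' ea ea'
    obtain ⟨p1, p2, -⟩ := hPRB S M.cm
    have e1 := hbig _ _ la ba ea
    have e2 := hbig _ _ la' ba' ea'
    have hback := M.lf.inv y a la
    have hb1 : M.lab (M.act y.1 a) a := (M.inv y.1 a la).1
    have hb2 : M.lact (M.lact y a) a = y := hback.2
    have hy2 : y.2 = tu := by rw [hy]; simp
    have h1 : (M.lact y a).2 = tu + M.m := by simp [Mc.lact, hy2, e1]
    have h2 : (M.lact y a').2 = tu + M.m := by simp [Mc.lact, hy2, e2]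
    refine ⟨[a, a'], ?_, ?_, ?_, by simp, ?_⟩
    · refine ⟨by rw [h1]; omega, ?_, ?_⟩
      · refine ⟨hb1, by rw [h1]; omega, ?_⟩
        rw [hb2, hy2]; omega
      · refine ⟨?_, trivial⟩
        rw [hb2]
        refine ⟨la', by rw [hy2]; omega, by rw [h2]; omega⟩
    · show M.lact (M.lact (M.lact y a) a) a' = _
      rw [hb2]
    · rw [p2, p2, p1, mul_one]
    · intro s hs _
      simpa using hs
  | succ n ih =>
    intro y a a' hn hy ba ba' la la' ea ea'
    obtain ⟨p1, p2, p3, p4, p5, -⟩ := hPRB S M.cm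
    obtain ⟨t1, t2, -, -⟩ := hTRB (V × ℤ) S (M.slab tu B).lab M.lact
    obtain ⟨s, bs, ls, es, hs⟩ := M.R2 y.1 ⟨a, la⟩
    have cma := hs a ba la ea
    have cma' := hs a' ba' la' ea'
    have e1 := hbig _ _ la ba ea
    have e2 := hbig _ _ la' ba' ea'
    have e3 := hsm _ _ ls bs es
    have sqa := M.sq y.1 s a cma ls la
    have sqa' := M.sq y.1 s a' cma' ls la'
    have sqb := M.sq y.1 a s (M.cm_symm _ _ cma) la ls
    have sqb' := M.sq y.1 a' s (M.cm_symm _ _ cma') la' ls
    have f1 := M.eta_sq y.1 a s (M.cm_symm _ _ cma) la ls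
    have f1' := M.eta_sq y.1 a' s (M.cm_symm _ _ cma') la' ls
    have f2 := M.eta_sq y.1 s a cma ls la
    have f2' := M.eta_sq y.1 s a' cma' ls la'
    have hlf := M.lf.sq y s a cma ls la
    have hlf' := M.lf.sq y s a' cma' ls la'
    have hl1 : M.lact (M.lact y s) a = M.lact (M.lact y a) s := hlf.2
    have hl2 : M.lact (M.lact y s) a' = M.lact (M.lact y a') s := hlf'.2
    have hy' : (M.lact y s).2 = tu - n := by
      simp only [Mc.lact, e3, hy]; push_cast; ring
    obtain ⟨N', g1, g2, g3, g4, g5⟩ := ih (M.lact y s) a a' (by omega) hy' ba ba' sqa.1 sqa'.1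
      (by show 0 < M.eta (M.act y.1 s) a; rw [f1]; exact ea)
      (by show 0 < M.eta (M.act y.1 s) a'; rw [f1']; exact ea')
    have h1 : (M.lact y a).2 = tu - (n + 1 : ℕ) + M.m := by simp only [Mc.lact, hy, e1]
    have h1' : (M.lact y a').2 = tu - (n + 1 : ℕ) + M.m := by simp only [Mc.lact, hy, e2]
    have h2 : (M.lact (M.lact y a) s).2 = tu - (n + 1 : ℕ) + M.m + 1 := by
      have : (M.lact (M.lact y a) s).2 = (M.lact y a).2 + M.eta (M.act y.1 a) s := rfl
      rw [this, h1, f2, e3]
    have h2' : (M.lact (M.lact y a') s).2 = tu - (n + 1 : ℕ) + M.m + 1 := by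
      have : (M.lact (M.lact y a') s).2 = (M.lact y a').2 + M.eta (M.act y.1 a') s := rfl
      rw [this, h1', f2', e3]
    have hinv : M.lact (M.lact (M.lact y a') s) s = M.lact y a' :=
      (M.lf.inv (M.lact y a') s sqb'.1).2
    refine ⟨s :: (N' ++ [s]), ?_, ?_, ?_, ?_, ?_⟩
    · refine ⟨by rw [h1]; push_cast; omega, ?_, ?_⟩
      · refine ⟨sqb.1, ?_, ?_⟩
        · rw [h1]; push_cast; omega
        · rw [h2]; push_cast; omega
      · rw [t1]
        change Tr (M.slab tu B).lab M.lact (M.lact (M.lact y a) s) N' ∧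
          Tr (M.slab tu B).lab M.lact (en M.lact (M.lact (M.lact y a) s) N') [s]
        rw [← hl1]
        refine ⟨g1.2, ?_⟩
        rw [g2, hl2]
        refine ⟨⟨(M.inv _ s sqb'.1).1, ?_, ?_⟩, trivial⟩
        · rw [h2']; push_cast; omega
        · rw [hinv, h1']; push_cast; omega
    · show en M.lact (M.lact (M.lact y a) s) (N' ++ [s]) = _
      rw [t2, ← hl1, g2, hl2]
      exact hinv
    · rw [p2, p3, g3, p2, p1, mul_one]
      have c1 := p5 s a cma
      have c2 := p5 s a' cma'
      calc io M.cm s * (io M.cm a * io M.cm a' * io M.cm s)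
          = (io M.cm s * io M.cm a) * (io M.cm a' * io M.cm s) := by simp only [mul_assoc]
        _ = (io M.cm a * io M.cm s) * (io M.cm s * io M.cm a') := by rw [c1, c2]
        _ = io M.cm a * (io M.cm s * io M.cm s) * io M.cm a' := by simp only [mul_assoc]
        _ = io M.cm a * io M.cm a' := by rw [p4, mul_one]
    · simp only [List.length_cons, List.length_append, List.length_nil]
      omega
    · intro u hu bu
      rcases List.mem_cons.1 hu with rfl | hu
      · exact absurd bu bs
      · rcases List.mem_append.1 hu with hu | hu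
        · exact g5 u hu bu
        · rw [List.mem_singleton.1 hu] at bu
          exact absurd bu bs

end Pool.Agent.H14.PD
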